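import Mathlib

/-! # Distance to the nearest integer and the reduction to weighted constraints -/

set_option autoImplicit false

open Filter Topology

namespace Pool.Agent.R444.Rot

/-- distance to the nearest integer -/
noncomputable def nn (x : ℝ) : ℝ := |x - round x|

theorem nn_nonneg (x : ℝ) : 0 ≤ nn x := abs_nonneg _

theorem nn_le (x : ℝ) (z : ℤ) : nn x ≤ |x - z| := round_le x z

theorem nn_le_abs (x : ℝ) : nn x ≤ |x| := by
  have := nn_le x 0
  simpa using this

theorem nn_add_int (x : ℝ) (z : ℤ) : nn (x + z) = nn x := by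
  unfold nn
  rw [round_add_intCast]
  congr 1
  push_cast
  ring

theorem nn_congr {x y : ℝ} (z : ℤ) (h : x = y + z) : nn x = nn y := by
  rw [h, nn_add_int]

theorem nn_eq_abs {x : ℝ} (h : |x| < 1 / 2) : nn x = |x| := by
  unfold nn
  have h0 : round x = 0 := by
    rw [round_eq_zero_iff]
    rw [abs_lt] at h
    exact ⟨by linarith [h.1], by linarith [h.2]⟩
  rw [h0]
  simp

theorem nn_zero : nn 0 = 0 := by
  rw [nn_eq_abs (by norm_num)]; simp

theorem nn_nat_mul_le (a : ℕ) (x : ℝ) : nn (a * x) ≤ a * nn x := by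
  have h := nn_le (a * x) ((a : ℤ) * round x)
  refine h.trans ?_
  unfold nn
  rw [← abs_of_nonneg (Nat.cast_nonneg a : (0:ℝ) ≤ (a:ℝ)), ← abs_mul]
  apply le_of_eq
  congr 1
  rw [abs_of_nonneg (Nat.cast_nonneg a : (0:ℝ) ≤ (a:ℝ))]
  push_cast
  ring

/-- discrete continuity: if all the multiples `a x`, `a ≤ A`, are `η`-close to integers then
`A` times the distance of `x` to the integers is less than `η`. -/
theorem disc_cont {x η : ℝ} (hη : 0 < η) (hη8 : η ≤ 1 / 8) {A : ℕ}
    (h : ∀ a ≤ A, nn (a * x) < η) : A * nn x < η := by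
  have key : ∀ a : ℕ, a ≤ A → a * nn x < η := by
    intro a
    induction a with
    | zero => intro _; simpa using hη
    | succ a ih =>
      intro ha
      have h1 := ih (by omega)
      have h2 : nn x < η := by
        have := h 1 (by omega)
        simpa using this
      have h3 := h (a + 1) ha
      have h4 : nn (((a + 1 : ℕ) : ℝ) * x) = nn (((a + 1 : ℕ) : ℝ) * (x - round x)) := by
        refine nn_congr (((a + 1 : ℕ) : ℤ) * round x) ?_
        push_cast
        ring
      have h5 : |((a + 1 : ℕ) : ℝ) * (x - round x)| = ((a + 1 : ℕ) : ℝ) * nn x := by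
        rw [abs_mul, abs_of_nonneg (Nat.cast_nonneg _)]
        rfl
      have h6 : ((a + 1 : ℕ) : ℝ) * nn x < 1 / 2 := by
        push_cast
        nlinarith
      rw [h4, nn_eq_abs (by rw [h5]; exact h6), h5] at h3
      exact h3
  exact key A le_rfl

/-- convergence of the sequence of all multiples `a M κ θ`, `a ≤ A κ`, to zero modulo one. -/
theorem conv_iff {K : Type*} (A : K → ℕ) (M : K → ℤ) (θ : ℝ) :
    Tendsto (fun p : K × ℕ => nn (((if p.2 ≤ A p.1 then (p.2 : ℤ) * M p.1 else 0 : ℤ) : ℝ) * θ))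
      cofinite (𝓝 0) ↔ Tendsto (fun κ => (A κ : ℝ) * nn ((M κ : ℝ) * θ)) cofinite (𝓝 0) := by
  have e1 : ∀ (a : ℕ) (m : ℤ), (((a : ℤ) * m : ℤ) : ℝ) * θ = (a : ℝ) * ((m : ℝ) * θ) := by
    intro a m; push_cast; ring
  constructor
  · intro h
    rw [Metric.tendsto_nhds] at h ⊢
    intro ε hε
    have h' := h (min ε (1 / 8)) (by positivity)
    rw [eventually_cofinite] at h' ⊢
    refine (h'.image Prod.fst).subset ?_
    intro κ hκ
    by_contra hcon
    apply hκ
    have hall : ∀ a ≤ A κ, nn ((a : ℝ) * ((M κ : ℝ) * θ)) < min ε (1 / 8) := by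
      intro a ha
      by_contra hbad
      apply hcon
      refine ⟨(κ, a), ?_, rfl⟩
      simp only [Set.mem_ofPred_eq, ha, if_true, e1, Real.dist_eq, sub_zero]
      rwa [abs_of_nonneg (nn_nonneg _)]
    have h1 := disc_cont (by positivity) (min_le_right _ _) hall
    rw [Real.dist_eq, sub_zero, abs_of_nonneg (mul_nonneg (Nat.cast_nonneg _) (nn_nonneg _))]
    exact h1.trans_le (min_le_left _ _)
  · intro h
    rw [Metric.tendsto_nhds] at h ⊢
    intro ε hε
    have h' := h ε hε
    rw [eventually_cofinite] at h' ⊢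
    refine (h'.biUnion (t := fun κ => (fun a => (κ, a)) '' Set.Iic (A κ))
      (fun κ _ => (Set.finite_Iic _).image _)).subset ?_
    rintro ⟨κ, a⟩ hκ
    simp only [Set.mem_ofPred_eq, Real.dist_eq, sub_zero, abs_of_nonneg (nn_nonneg _)] at hκ
    have ha : a ≤ A κ := by
      by_contra ha
      rw [if_neg ha] at hκ
      simp only [Int.cast_zero, zero_mul, nn_zero] at hκ
      exact hκ hε
    rw [if_pos ha, e1] at hκ
    refine Set.mem_biUnion (x := κ) ?_ ⟨a, ha, rfl⟩
    simp only [Set.mem_ofPred_eq, Real.dist_eq, sub_zero]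
    rw [abs_of_nonneg (mul_nonneg (Nat.cast_nonneg _) (nn_nonneg _))]
    intro hlt
    apply hκ
    refine lt_of_le_of_lt (nn_nat_mul_le a _) (lt_of_le_of_lt ?_ hlt)
    exact mul_le_mul_of_nonneg_right (by exact_mod_cast ha) (nn_nonneg _)

theorem tendsto_cofinite_sum {α β γ : Type*} {f : α ⊕ β → γ} {l : Filter γ}
    (h1 : Tendsto (fun a => f (Sum.inl a)) cofinite l)
    (h2 : Tendsto (fun b => f (Sum.inr b)) cofinite l) : Tendsto f cofinite l := by
  intro s hs
  have h1' := h1 hs
  have h2' := h2 hs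
  rw [mem_map, mem_cofinite] at h1' h2' ⊢
  refine ((h1'.image Sum.inl).union (h2'.image Sum.inr)).subset ?_
  rintro (a | b) hx
  · exact Or.inl ⟨a, hx, rfl⟩
  · exact Or.inr ⟨b, hx, rfl⟩

theorem tendsto_comp_equiv {ι γ : Type*} (e : ι ≃ ℕ) (f : ι → γ) (l : Filter γ) :
    Tendsto (fun k => f (e.symm k)) atTop l ↔ Tendsto f cofinite l := by
  rw [← Nat.cofinite_eq_atTop]
  constructor
  · intro h
    have := h.comp e.injective.tendsto_cofinite
    simpa [Function.comp_def] using this
  · intro h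
    exact h.comp e.symm.injective.tendsto_cofinite

end Pool.Agent.R444.Rot
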