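import Pool.Agent.R444.Rot.Basic
import Pool.Agent.H534R3.NonBorel

/-! # The constraint system attached to a tree -/

set_option autoImplicit false

open Filter Topology

namespace Pool.Agent.R444.Rot

open Pool.Agent.H534R3.NonBorel

/-- the base denominators `q_0 = 1`, `q_{l+1} = 2^{l+1} q_l` -/
def q : ℕ → ℕ
  | 0 => 1
  | l + 1 => 2 ^ (l + 1) * q l

theorem q_pos (l : ℕ) : 0 < q l := by
  induction l with
  | zero => simp [q]
  | succ l ih => rw [q]; positivity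

/-- the next copy of the variable at position `l` -/
def nxt (l : ℕ) : ℕ := Nat.pair (Nat.unpair l).1 ((Nat.unpair l).2 + 1)

theorem nxt_pair (c i : ℕ) : nxt (Nat.pair c i) = Nat.pair c (i + 1) := by
  simp [nxt]

theorem lt_nxt (l : ℕ) : l < nxt l := by
  conv_lhs => rw [← Nat.pair_unpair l]
  exact Nat.pair_lt_pair_right _ (Nat.lt_succ_self _)

/-- the code of the variable `(s, n)` -/
def cd (s : List ℕ) (n : ℕ) : ℕ := Encodable.encode (s, n)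

theorem cd_inj : Function.Injective (fun p : List ℕ × ℕ => cd p.1 p.2) := by
  intro a b h
  exact Encodable.encode_injective h

/-- the index type of the constraints -/
abbrev Kd := ℕ ⊕ (ℕ ⊕ (((List ℕ × ℕ) × ℕ) ⊕ ((List ℕ × ℕ) ⊕ (List ℕ × ℕ))))

/-- the basic multiplier of a constraint -/
def MM : Kd → ℤ
  | .inl l => q l
  | .inr (.inl l) => q l - 2 ^ (nxt l - l) * q (nxt l)
  | .inr (.inr (.inl ((s, n), i))) =>
      2 ^ (Nat.pair (cd s n) i - i) * q (Nat.pair (cd s n) i)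
      - 2 ^ (Nat.pair (cd (s ++ [n]) 0) i - i) * q (Nat.pair (cd (s ++ [n]) 0) i)
      - 2 ^ (Nat.pair (cd s (n + 1)) i - i) * q (Nat.pair (cd s (n + 1)) i)
  | .inr (.inr (.inr (.inl (s, n)))) => q (Nat.pair (cd s n) 0)
  | .inr (.inr (.inr (.inr (s, i)))) => q (Nat.pair (cd s 0) i)

/-- the range of a constraint -/
def AA (bad : List ℕ → Bool) : Kd → ℕ
  | .inl l => 2 ^ (l + 1) / (l + 2)
  | .inr (.inl l) => 2 ^ l
  | .inr (.inr (.inl (_, i))) => 2 ^ i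
  | .inr (.inr (.inr (.inl (s, n)))) => 2 ^ (Nat.pair (cd s n) 0 + 1) / (Encodable.encode s + 2)
  | .inr (.inr (.inr (.inr (s, i)))) => if bad s then 2 ^ (Nat.pair (cd s 0) i) else 0

/-- `y` and `e` are the remainders and digits of `θ` in the mixed base -/
structure Dig (θ : ℝ) (y : ℕ → ℝ) (e : ℕ → ℤ) : Prop where
  int : ∀ l, ∃ R : ℤ, (q l : ℝ) * θ = y l + R
  step : ∀ l, 2 ^ (l + 1) * y l = e l + y (l + 1)

theorem Dig.nn_q {θ : ℝ} {y : ℕ → ℝ} {e : ℕ → ℤ} (h : Dig θ y e) (l : ℕ) :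
    nn ((q l : ℝ) * θ) = nn (y l) := by
  obtain ⟨R, hR⟩ := h.int l
  exact nn_congr R hR

theorem Dig.part {θ : ℝ} {y : ℕ → ℝ} {e : ℕ → ℤ} (h : Dig θ y e) {l j : ℕ} (hj : j ≤ l) :
    ∃ R : ℤ, ((2:ℝ) ^ (l - j) * q l) * θ = (e l + y (l + 1)) / 2 ^ (j + 1) + R := by
  obtain ⟨R, hR⟩ := h.int l
  refine ⟨2 ^ (l - j) * R, ?_⟩
  rw [mul_assoc, hR, ← h.step l]
  have h2 : (2:ℝ) ^ (l + 1) = 2 ^ (l - j) * 2 ^ (j + 1) := by
    rw [← pow_add]; congr 1; omega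
  rw [h2]
  push_cast
  field_simp

theorem Dig.nn_B {θ : ℝ} {y : ℕ → ℝ} {e : ℕ → ℤ} (h : Dig θ y e) (l : ℕ) :
    nn ((MM (.inr (.inl l)) : ℝ) * θ) =
      nn (((e l - e (nxt l) : ℤ) + (y (l + 1) - y (nxt l + 1))) / 2 ^ (l + 1)) := by
  obtain ⟨R1, h1⟩ := h.part (le_refl l)
  obtain ⟨R2, h2⟩ := h.part (lt_nxt l).le
  refine nn_congr (R1 - R2) ?_
  simp only [MM]
  push_cast
  rw [Nat.sub_self, pow_zero, one_mul] at h1
  rw [sub_mul, h1, h2]
  ring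

theorem Dig.nn_C {θ : ℝ} {y : ℕ → ℝ} {e : ℕ → ℤ} (h : Dig θ y e) (s : List ℕ) (n i : ℕ) :
    nn ((MM (.inr (.inr (.inl ((s, n), i)))) : ℝ) * θ) =
      nn (((e (Nat.pair (cd s n) i) - e (Nat.pair (cd (s ++ [n]) 0) i)
        - e (Nat.pair (cd s (n + 1)) i) : ℤ) + (y (Nat.pair (cd s n) i + 1)
        - y (Nat.pair (cd (s ++ [n]) 0) i + 1) - y (Nat.pair (cd s (n + 1)) i + 1)))
        / 2 ^ (i + 1)) := by
  obtain ⟨R1, h1⟩ := h.part (Nat.right_le_pair (cd s n) i)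
  obtain ⟨R2, h2⟩ := h.part (Nat.right_le_pair (cd (s ++ [n]) 0) i)
  obtain ⟨R3, h3⟩ := h.part (Nat.right_le_pair (cd s (n + 1)) i)
  refine nn_congr (R1 - R2 - R3) ?_
  simp only [MM]
  push_cast
  rw [sub_mul, sub_mul, h1, h2, h3]
  ring

end Pool.Agent.R444.Rot
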