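import Pool.Agent.R444.Rot.Defs

/-! # A branch gives an irrational rotation -/

set_option autoImplicit false

open Filter Topology

namespace Pool.Agent.R444.Rot

open Pool.Agent.H534R3.NonBorel

open Classical in
/-- the value of the variable `(s, n)` for the branch `f` -/
noncomputable def vl (f : ℕ → ℕ) (s : List ℕ) (n : ℕ) : ℤ :=
  if s = br f s.length ∧ n ≤ f s.length then 1 else 0

theorem br_succ (f : ℕ → ℕ) (k : ℕ) : br f (k + 1) = br f k ++ [f k] := by
  rw [br, List.range_succ, List.map_append]; rfl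

theorem vl_rec (f : ℕ → ℕ) (s : List ℕ) (n : ℕ) :
    vl f s n = vl f (s ++ [n]) 0 + vl f s (n + 1) := by
  unfold vl
  have h1 : (s ++ [n] = br f (s ++ [n]).length ∧ 0 ≤ f (s ++ [n]).length) ↔
      (s = br f s.length ∧ n = f s.length) := by
    rw [List.length_append, List.length_singleton, br_succ]
    constructor
    · rintro ⟨h, -⟩
      have := List.append_inj h (by simp)
      exact ⟨this.1, by simpa using this.2⟩
    · rintro ⟨h, h'⟩
      rw [← h, ← h']
      simp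
  by_cases hs : s = br f s.length
  · by_cases h2 : n ≤ f s.length
    · by_cases h3 : n = f s.length
      · rw [if_pos ⟨hs, h2⟩, if_pos (h1.2 ⟨hs, h3⟩), if_neg (by rintro ⟨_, h⟩; omega)]
        simp
      · rw [if_pos ⟨hs, h2⟩, if_neg (by rw [h1]; exact fun h => h3 h.2),
          if_pos ⟨hs, by omega⟩]
        simp
    · rw [if_neg (by rintro ⟨_, h⟩; omega), if_neg (by rw [h1]; rintro ⟨_, h⟩; omega),
        if_neg (by rintro ⟨_, h⟩; omega)]
      simp
  · rw [if_neg (fun h => hs h.1), if_neg (by rw [h1]; exact fun h => hs h.1),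
      if_neg (fun h => hs h.1)]
    simp

theorem vl_nonneg (f : ℕ → ℕ) (s : List ℕ) (n : ℕ) : 0 ≤ vl f s n := by
  unfold vl; split_ifs <;> simp

theorem vl_le_one (f : ℕ → ℕ) (s : List ℕ) (n : ℕ) : vl f s n ≤ 1 := by
  unfold vl; split_ifs <;> simp

/-- the digits -/
noncomputable def ee (f : ℕ → ℕ) (l : ℕ) : ℤ :=
  match (Encodable.decode (Nat.unpair l).1 : Option (List ℕ × ℕ)) with
  | some (s, n) => vl f s n
  | none => 0

theorem ee_pair (f : ℕ → ℕ) (s : List ℕ) (n i : ℕ) : ee f (Nat.pair (cd s n) i) = vl f s n := by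
  unfold ee cd
  simp

theorem ee_nxt (f : ℕ → ℕ) (l : ℕ) : ee f (nxt l) = ee f l := by
  unfold ee nxt
  simp

theorem ee_nonneg (f : ℕ → ℕ) (l : ℕ) : 0 ≤ ee f l := by
  unfold ee
  split
  · exact vl_nonneg _ _ _
  · exact le_rfl

theorem ee_le_one (f : ℕ → ℕ) (l : ℕ) : ee f l ≤ 1 := by
  unfold ee
  split
  · exact vl_le_one _ _ _
  · exact zero_le_one

theorem q_ge (l k : ℕ) : 2 ^ (l + 1 + k) * q l ≤ q (l + k + 1) := by
  induction k with
  | zero => exact le_of_eq (by rw [Nat.add_zero, Nat.add_zero]; rfl)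
  | succ k ih =>
    have : q (l + (k + 1) + 1) = 2 ^ (l + (k + 1) + 1) * q (l + k + 1) := by
      rw [show l + (k + 1) + 1 = (l + k + 1) + 1 from by omega, q]
    rw [this]
    calc 2 ^ (l + 1 + (k + 1)) * q l = 2 * (2 ^ (l + 1 + k) * q l) := by ring
      _ ≤ 2 * q (l + k + 1) := Nat.mul_le_mul_left _ ih
      _ ≤ 2 ^ (l + (k + 1) + 1) * q (l + k + 1) := by
        refine Nat.mul_le_mul_right _ ?_
        calc 2 = 2 ^ 1 := by norm_num
          _ ≤ 2 ^ (l + (k + 1) + 1) := Nat.pow_le_pow_right (by norm_num) (by omega)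

/-- the terms of the series for the remainder -/
noncomputable def gg (f : ℕ → ℕ) (l k : ℕ) : ℝ := ee f (l + k) * ((q l : ℝ) / q (l + k + 1))

theorem gg_nonneg (f : ℕ → ℕ) (l k : ℕ) : 0 ≤ gg f l k := by
  have : (0:ℝ) ≤ ee f (l + k) := by exact_mod_cast ee_nonneg f _
  unfold gg
  positivity

theorem gg_le (f : ℕ → ℕ) (l k : ℕ) : gg f l k ≤ (1 / 2) ^ (l + 1) * (1 / 2) ^ k := by
  have h0 : (0:ℝ) ≤ ee f (l + k) := by exact_mod_cast ee_nonneg f _
  have h1 : (ee f (l + k) : ℝ) ≤ 1 := by exact_mod_cast ee_le_one f _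
  have hq : (0:ℝ) < q l := by exact_mod_cast q_pos l
  have hq' : (0:ℝ) < q (l + k + 1) := by exact_mod_cast q_pos _
  have h2 : (2:ℝ) ^ (l + 1 + k) * q l ≤ q (l + k + 1) := by exact_mod_cast q_ge l k
  have h3 : (q l : ℝ) / q (l + k + 1) ≤ (1 / 2) ^ (l + 1) * (1 / 2) ^ k := by
    rw [← pow_add, one_div, inv_pow, div_le_iff₀ hq', ← div_eq_inv_mul, le_div_iff₀ (by positivity),
      mul_comm]
    exact h2
  unfold gg
  calc (ee f (l + k) : ℝ) * ((q l : ℝ) / q (l + k + 1)) ≤ 1 * ((q l : ℝ) / q (l + k + 1)) :=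
        mul_le_mul_of_nonneg_right h1 (by positivity)
    _ ≤ _ := by rw [one_mul]; exact h3

theorem gg_summable (f : ℕ → ℕ) (l : ℕ) : Summable (gg f l) :=
  Summable.of_nonneg_of_le (gg_nonneg f l) (gg_le f l)
    ((summable_geometric_of_lt_one (by norm_num) (by norm_num)).mul_left _)

/-- the remainders -/
noncomputable def yy (f : ℕ → ℕ) (l : ℕ) : ℝ := ∑' k, gg f l k

theorem yy_nonneg (f : ℕ → ℕ) (l : ℕ) : 0 ≤ yy f l := tsum_nonneg (gg_nonneg f l)

theorem yy_le (f : ℕ → ℕ) (l : ℕ) : yy f l ≤ (1 / 2) ^ l := by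
  have h := (gg_summable f l).tsum_le_tsum (gg_le f l)
    ((summable_geometric_of_lt_one (by norm_num) (by norm_num)).mul_left _)
  refine h.trans (le_of_eq ?_)
  rw [tsum_mul_left, tsum_geometric_of_lt_one (by norm_num) (by norm_num), pow_succ]
  ring

theorem yy_step (f : ℕ → ℕ) (l : ℕ) : 2 ^ (l + 1) * yy f l = ee f l + yy f (l + 1) := by
  unfold yy
  rw [(gg_summable f l).tsum_eq_zero_add, mul_add, ← tsum_mul_left]
  have hq : (q l : ℝ) ≠ 0 := by exact_mod_cast (q_pos l).ne'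
  congr 1
  · unfold gg
    have : q (l + 0 + 1) = 2 ^ (l + 1) * q l := rfl
    rw [this, Nat.add_zero]
    push_cast
    field_simp
    rfl
  · refine tsum_congr fun k => ?_
    unfold gg
    have h1 : q (l + 1) = 2 ^ (l + 1) * q l := rfl
    have hq2 : (q (l + 1 + k + 1) : ℝ) ≠ 0 := by exact_mod_cast (q_pos _).ne'
    rw [show l + (k + 1) + 1 = l + 1 + k + 1 from by omega, show l + (k + 1) = l + 1 + k from by omega,
      h1]
    push_cast
    field_simp

theorem dig (f : ℕ → ℕ) : Dig (yy f 0) (yy f) (ee f) := by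
  refine ⟨?_, yy_step f⟩
  intro l
  induction l with
  | zero => exact ⟨0, by simp [q]⟩
  | succ l ih =>
    obtain ⟨R, hR⟩ := ih
    refine ⟨ee f l + 2 ^ (l + 1) * R, ?_⟩
    have h1 : q (l + 1) = 2 ^ (l + 1) * q l := rfl
    have h2 := yy_step f l
    rw [h1]
    push_cast
    rw [mul_assoc, hR, mul_add, h2]
    ring

theorem ee_one (f : ℕ → ℕ) (i : ℕ) : ee f (Nat.pair (cd [] 0) i) = 1 := by
  rw [ee_pair]
  unfold vl
  rw [if_pos]
  simp [br]

theorem yy_pos (f : ℕ → ℕ) (l : ℕ) : 0 < yy f l := by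
  have h1 : l ≤ Nat.pair (cd [] 0) l := Nat.right_le_pair _ _
  obtain ⟨k, hk⟩ := Nat.exists_eq_add_of_le h1
  have h2 : ee f (l + k) = 1 := by rw [← hk]; exact ee_one f l
  refine lt_of_lt_of_le ?_ ((gg_summable f l).le_tsum k (fun j _ => gg_nonneg f l j))
  unfold gg
  rw [h2]
  have hq : (0:ℝ) < q l := by exact_mod_cast q_pos l
  have hq' : (0:ℝ) < q (l + k + 1) := by exact_mod_cast q_pos _
  push_cast
  positivity

theorem irr (f : ℕ → ℕ) (m : ℕ) (hm : 0 < m) (z : ℤ) : (m : ℝ) * yy f 0 ≠ z := by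
  intro h
  obtain ⟨l, hl⟩ := exists_pow_lt_of_lt_one (show (0:ℝ) < 1 / m by positivity)
    (show (1 / 2 : ℝ) < 1 by norm_num)
  obtain ⟨R, hR⟩ := (dig f).int l
  have h1 : (m : ℝ) * yy f l = ((q l : ℤ) * z - m * R : ℤ) := by
    push_cast
    rw [← h]
    linear_combination (-(m:ℝ)) * hR
  have h2 : (0:ℝ) < m * yy f l := mul_pos (by exact_mod_cast hm) (yy_pos f l)
  have h3 : (m:ℝ) * yy f l < 1 := by
    have h4 : yy f l < 1 / m := (yy_le f l).trans_lt hl
    rw [lt_div_iff₀ (by exact_mod_cast hm)] at h4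
    linarith
  rw [h1] at h2 h3
  have h5 : (0:ℤ) < (q l : ℤ) * z - m * R := by exact_mod_cast h2
  have h6 : ((q l : ℤ) * z - m * R : ℤ) < 1 := by exact_mod_cast h3
  omega

theorem half_tendsto {κ : Type*} {φ : κ → ℕ} (h : Function.Injective φ) :
    Tendsto (fun x => (1 / 2 : ℝ) ^ (φ x)) cofinite (𝓝 0) := by
  have h1 : Tendsto (fun n : ℕ => (1 / 2 : ℝ) ^ n) atTop (𝓝 0) :=
    tendsto_pow_atTop_nhds_zero_of_lt_one (by norm_num) (by norm_num)
  rw [← Nat.cofinite_eq_atTop] at h1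
  exact h1.comp h.tendsto_cofinite

theorem term_nonneg (A : ℕ) (x : ℝ) : 0 ≤ (A : ℝ) * nn x :=
  mul_nonneg (Nat.cast_nonneg _) (nn_nonneg _)

theorem pair_left_inj {α : Type*} {c : α → ℕ} (hc : Function.Injective c) (i : ℕ) :
    Function.Injective (fun a => Nat.pair (c a) i) := by
  intro a b h
  exact hc (Nat.pair_eq_pair.1 h).1

theorem pair_inj2 {α : Type*} {c : α → ℕ} (hc : Function.Injective c) :
    Function.Injective (fun p : α × ℕ => Nat.pair (c p.1) p.2) := by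
  intro a b h
  have := Nat.pair_eq_pair.1 h
  exact Prod.ext (hc this.1) this.2

/-- a branch gives convergence of all the constraints. -/
theorem dir1 (f : ℕ → ℕ) (bad : List ℕ → Bool)
    (hbad : ∀ s, s = br f s.length → bad s = false) :
    Tendsto (fun κ => (AA bad κ : ℝ) * nn ((MM κ : ℝ) * yy f 0)) cofinite (𝓝 0) := by
  have D := dig f
  refine tendsto_cofinite_sum ?_ (tendsto_cofinite_sum ?_ (tendsto_cofinite_sum ?_
    (tendsto_cofinite_sum ?_ ?_)))
  · -- E
    have hb : Tendsto (fun l : ℕ => 2 / ((l : ℝ) + 2)) cofinite (𝓝 0) := by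
      rw [Nat.cofinite_eq_atTop]
      refine Tendsto.div_atTop tendsto_const_nhds ?_
      exact tendsto_atTop_add_const_right _ _ tendsto_natCast_atTop_atTop
    refine squeeze_zero (fun l => term_nonneg _ _) (fun l => ?_) hb
    show ((2 ^ (l + 1) / (l + 2) : ℕ) : ℝ) * nn (((q l : ℤ) : ℝ) * yy f 0) ≤ _
    rw [Int.cast_natCast, D.nn_q]
    have h1 : ((2 ^ (l + 1) / (l + 2) : ℕ) : ℝ) ≤ 2 ^ (l + 1) / ((l : ℝ) + 2) := by
      have := @Nat.cast_div_le ℝ _ _ _ (2 ^ (l + 1)) (l + 2)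
      push_cast at this
      exact this
    have h2 : nn (yy f l) ≤ (1 / 2) ^ l := by
      refine (nn_le_abs _).trans ?_
      rw [abs_of_nonneg (yy_nonneg f l)]
      exact yy_le f l
    calc _ ≤ (2 ^ (l + 1) / ((l : ℝ) + 2)) * (1 / 2) ^ l :=
          mul_le_mul h1 h2 (nn_nonneg _) (by positivity)
      _ = 2 / ((l : ℝ) + 2) := by
        rw [pow_succ, one_div, inv_pow]
        field_simp
  · -- B
    have hb : Tendsto (fun l : ℕ => (1 / 2 : ℝ) ^ l) cofinite (𝓝 0) :=
      half_tendsto (φ := id) Function.injective_id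
    refine squeeze_zero (fun l => term_nonneg _ _) (fun l => ?_) hb
    show ((2 ^ l : ℕ) : ℝ) * nn ((MM (.inr (.inl l)) : ℝ) * yy f 0) ≤ _
    rw [D.nn_B, ee_nxt, sub_self]
    have h1 : nn ((((0 : ℤ) : ℝ) + (yy f (l + 1) - yy f (nxt l + 1))) / 2 ^ (l + 1)) ≤
        (1 / 2) ^ (l + 1) / 2 ^ (l + 1) := by
      refine (nn_le_abs _).trans ?_
      rw [abs_div, abs_of_pos (show (0:ℝ) < 2 ^ (l + 1) by positivity)]
      refine div_le_div_of_nonneg_right ?_ (by positivity)
      rw [Int.cast_zero, zero_add, abs_le]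
      have a1 := yy_nonneg f (l + 1)
      have a2 := yy_le f (l + 1)
      have a3 := yy_nonneg f (nxt l + 1)
      have a4 := yy_le f (nxt l + 1)
      have a5 : (1 / 2 : ℝ) ^ (nxt l + 1) ≤ (1 / 2) ^ (l + 1) :=
        pow_le_pow_of_le_one (by norm_num) (by norm_num) (by have := lt_nxt l; omega)
      constructor <;> linarith
    have h2 : (1 / 2 : ℝ) ^ (l + 1) ≤ 1 := pow_le_one₀ (by norm_num) (by norm_num)
    calc _ ≤ ((2 ^ l : ℕ) : ℝ) * ((1 / 2) ^ (l + 1) / 2 ^ (l + 1)) :=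
          mul_le_mul_of_nonneg_left h1 (by positivity)
      _ = (1 / 2) ^ (l + 2) := by
        push_cast
        rw [pow_succ (2:ℝ) l, pow_succ (1 / 2 : ℝ) (l + 1)]
        field_simp
      _ ≤ (1 / 2) ^ l := pow_le_pow_of_le_one (by norm_num) (by norm_num) (by omega)
  · -- C
    have hb1 : Tendsto (fun p : (List ℕ × ℕ) × ℕ => (1 / 2 : ℝ) ^
        (Nat.pair (cd p.1.1 p.1.2) p.2)) cofinite (𝓝 0) := half_tendsto (pair_inj2 cd_inj)
    have hb2 : Tendsto (fun p : (List ℕ × ℕ) × ℕ => (1 / 2 : ℝ) ^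
        (Nat.pair (cd (p.1.1 ++ [p.1.2]) 0) p.2)) cofinite (𝓝 0) := by
      refine half_tendsto (pair_inj2 (c := fun p : List ℕ × ℕ => cd (p.1 ++ [p.2]) 0) ?_)
      intro a b h
      have h1 := @cd_inj (a.1 ++ [a.2], 0) (b.1 ++ [b.2], 0) h
      have h2 : a.1 ++ [a.2] = b.1 ++ [b.2] := congrArg Prod.fst h1
      have h3 := List.append_inj' h2 rfl
      exact Prod.ext h3.1 (by simpa using h3.2)
    have hb3 : Tendsto (fun p : (List ℕ × ℕ) × ℕ => (1 / 2 : ℝ) ^
        (Nat.pair (cd p.1.1 (p.1.2 + 1)) p.2)) cofinite (𝓝 0) := by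
      refine half_tendsto (pair_inj2 (c := fun p : List ℕ × ℕ => cd p.1 (p.2 + 1)) ?_)
      intro a b h
      have h1 := @cd_inj (a.1, a.2 + 1) (b.1, b.2 + 1) h
      have h2 := (Prod.mk.injEq _ _ _ _ ▸ h1 : a.1 = b.1 ∧ a.2 + 1 = b.2 + 1)
      exact Prod.ext h2.1 (by omega)
    have hb := (hb1.add hb2).add hb3
    rw [add_zero, add_zero] at hb
    refine squeeze_zero (fun l => term_nonneg _ _) ?_ hb
    rintro ⟨⟨s, n⟩, i⟩
    show ((2 ^ i : ℕ) : ℝ) * nn ((MM (.inr (.inr (.inl ((s, n), i)))) : ℝ) * yy f 0) ≤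
      (1 / 2 : ℝ) ^ (Nat.pair (cd s n) i) + (1 / 2 : ℝ) ^ (Nat.pair (cd (s ++ [n]) 0) i) +
      (1 / 2 : ℝ) ^ (Nat.pair (cd s (n + 1)) i)
    rw [D.nn_C, ee_pair, ee_pair, ee_pair, vl_rec f s n]
    have e0 : vl f (s ++ [n]) 0 + vl f s (n + 1) - vl f (s ++ [n]) 0 - vl f s (n + 1) = 0 := by
      ring
    rw [e0, Int.cast_zero, zero_add]
    have hy : ∀ l, yy f (l + 1) ≤ (1 / 2) ^ l := fun l => (yy_le f (l + 1)).trans
      (pow_le_pow_of_le_one (by norm_num) (by norm_num) (by omega))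
    have a1 := yy_nonneg f (Nat.pair (cd s n) i + 1)
    have a2 := yy_nonneg f (Nat.pair (cd (s ++ [n]) 0) i + 1)
    have a3 := yy_nonneg f (Nat.pair (cd s (n + 1)) i + 1)
    have b1 := hy (Nat.pair (cd s n) i)
    have b2 := hy (Nat.pair (cd (s ++ [n]) 0) i)
    have b3 := hy (Nat.pair (cd s (n + 1)) i)
    have h1 := nn_le_abs ((yy f (Nat.pair (cd s n) i + 1) - yy f (Nat.pair (cd (s ++ [n]) 0) i + 1)
      - yy f (Nat.pair (cd s (n + 1)) i + 1)) / 2 ^ (i + 1))
    rw [abs_div, abs_of_pos (show (0:ℝ) < 2 ^ (i + 1) by positivity)] at h1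
    have h2 : |yy f (Nat.pair (cd s n) i + 1) - yy f (Nat.pair (cd (s ++ [n]) 0) i + 1)
      - yy f (Nat.pair (cd s (n + 1)) i + 1)| ≤ (1 / 2 : ℝ) ^ (Nat.pair (cd s n) i) +
      (1 / 2 : ℝ) ^ (Nat.pair (cd (s ++ [n]) 0) i) + (1 / 2 : ℝ) ^ (Nat.pair (cd s (n + 1)) i) := by
      rw [abs_le]
      constructor <;> linarith
    set Y := |yy f (Nat.pair (cd s n) i + 1) - yy f (Nat.pair (cd (s ++ [n]) 0) i + 1)
      - yy f (Nat.pair (cd s (n + 1)) i + 1)| with hY
    have hY0 : 0 ≤ Y := abs_nonneg _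
    calc _ ≤ ((2 ^ i : ℕ) : ℝ) * (Y / 2 ^ (i + 1)) := mul_le_mul_of_nonneg_left h1 (by positivity)
      _ = Y / 2 := by
        push_cast
        rw [pow_succ]
        field_simp
      _ ≤ _ := by linarith
  · -- D
    have hb1 : Tendsto (fun p : List ℕ × ℕ => (1 / 2 : ℝ) ^ (Nat.pair (cd p.1 p.2) 0))
        cofinite (𝓝 0) := half_tendsto (pair_left_inj cd_inj 0)
    have hb2 : Tendsto (fun p : List ℕ × ℕ => (vl f p.1 p.2 : ℝ) / (Encodable.encode p.1 + 2))
        cofinite (𝓝 0) := by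
      rw [Metric.tendsto_nhds]
      intro ε hε
      rw [eventually_cofinite]
      have hfin : {s : List ℕ | Encodable.encode s ≤ ⌈1 / ε⌉₊}.Finite :=
        (Set.finite_Iic ⌈1 / ε⌉₊).preimage Encodable.encode_injective.injOn
      refine (hfin.biUnion (t := fun s => (fun a => (s, a)) '' Set.Iic (f s.length))
        (fun κ _ => (Set.finite_Iic _).image _)).subset ?_
      rintro ⟨s, n⟩ hsn
      simp only [Set.mem_ofPred_eq, Real.dist_eq, sub_zero, not_lt] at hsn
      have hv0 : (0:ℝ) ≤ vl f s n := by exact_mod_cast vl_nonneg f s n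
      rw [abs_of_nonneg (by positivity)] at hsn
      have hv : s = br f s.length ∧ n ≤ f s.length := by
        by_contra hcon
        have : vl f s n = 0 := by unfold vl; rw [if_neg hcon]
        rw [this] at hsn
        simp at hsn
        linarith
      have hv1 : (vl f s n : ℝ) = 1 := by
        unfold vl; rw [if_pos hv]; simp
      rw [hv1] at hsn
      refine Set.mem_biUnion (x := s) ?_ ⟨n, hv.2, rfl⟩
      show Encodable.encode s ≤ ⌈1 / ε⌉₊
      have h1 : ((Encodable.encode s : ℕ) : ℝ) + 2 ≤ 1 / ε := by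
        rw [le_div_iff₀ hε]
        rw [le_div_iff₀ (by positivity)] at hsn
        linarith
      have h2 : ((Encodable.encode s : ℕ) : ℝ) ≤ (⌈1 / ε⌉₊ : ℝ) := by
        have := Nat.le_ceil (1 / ε)
        linarith
      exact_mod_cast h2
    have hb := hb2.add hb1
    rw [add_zero] at hb
    refine squeeze_zero (fun l => term_nonneg _ _) ?_ hb
    rintro ⟨s, n⟩
    show ((2 ^ (Nat.pair (cd s n) 0 + 1) / (Encodable.encode s + 2) : ℕ) : ℝ) *
      nn (((q (Nat.pair (cd s n) 0) : ℤ) : ℝ) * yy f 0) ≤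
      (vl f s n : ℝ) / (Encodable.encode s + 2) + (1 / 2 : ℝ) ^ (Nat.pair (cd s n) 0)
    rw [Int.cast_natCast, D.nn_q]
    have hst := yy_step f (Nat.pair (cd s n) 0)
    rw [ee_pair] at hst
    set l := Nat.pair (cd s n) 0 with hl
    have h1 : ((2 ^ (l + 1) / (Encodable.encode s + 2) : ℕ) : ℝ) ≤
        2 ^ (l + 1) / ((Encodable.encode s : ℝ) + 2) := by
      have := @Nat.cast_div_le ℝ _ _ _ (2 ^ (l + 1)) (Encodable.encode s + 2)
      push_cast at this
      exact this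
    have h2 : nn (yy f l) ≤ yy f l := by
      refine (nn_le_abs _).trans ?_
      rw [abs_of_nonneg (yy_nonneg f l)]
    have h3 : yy f (l + 1) ≤ (1 / 2) ^ l := (yy_le f (l + 1)).trans
      (pow_le_pow_of_le_one (by norm_num) (by norm_num) (by omega))
    calc _ ≤ (2 ^ (l + 1) / ((Encodable.encode s : ℝ) + 2)) * yy f l :=
          mul_le_mul h1 h2 (nn_nonneg _) (by positivity)
      _ = (vl f s n + yy f (l + 1)) / ((Encodable.encode s : ℝ) + 2) := by
          rw [← hst]; ring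
      _ = (vl f s n : ℝ) / (Encodable.encode s + 2) +
          yy f (l + 1) / ((Encodable.encode s : ℝ) + 2) := by rw [add_div]
      _ ≤ _ := by
        have h4 : yy f (l + 1) / ((Encodable.encode s : ℝ) + 2) ≤ yy f (l + 1) := by
          refine div_le_self (yy_nonneg f _) ?_
          have : (0:ℝ) ≤ (Encodable.encode s : ℝ) := Nat.cast_nonneg _
          linarith
        linarith
  · -- K
    have hb : Tendsto (fun p : List ℕ × ℕ => (1 / 2 : ℝ) ^ (Nat.pair (cd p.1 0) p.2))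
        cofinite (𝓝 0) := by
      refine half_tendsto (pair_inj2 (c := fun s => cd s 0) ?_)
      intro a b h
      exact congrArg Prod.fst (@cd_inj (a, 0) (b, 0) h)
    refine squeeze_zero (fun l => term_nonneg _ _) ?_ hb
    rintro ⟨s, i⟩
    show ((if bad s then 2 ^ (Nat.pair (cd s 0) i) else 0 : ℕ) : ℝ) *
      nn (((q (Nat.pair (cd s 0) i) : ℤ) : ℝ) * yy f 0) ≤ (1 / 2 : ℝ) ^ (Nat.pair (cd s 0) i)
    by_cases hbs : bad s = true
    · rw [if_pos hbs, Int.cast_natCast, D.nn_q]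
      have hst := yy_step f (Nat.pair (cd s 0) i)
      rw [ee_pair] at hst
      have hv : vl f s 0 = 0 := by
        unfold vl
        rw [if_neg]
        rintro ⟨h, -⟩
        rw [hbad s h] at hbs
        exact absurd hbs (by simp)
      rw [hv] at hst
      set l := Nat.pair (cd s 0) i with hl
      have h2 : nn (yy f l) ≤ yy f l := by
        refine (nn_le_abs _).trans ?_
        rw [abs_of_nonneg (yy_nonneg f l)]
      have h3 : yy f (l + 1) ≤ (1 / 2) ^ l := (yy_le f (l + 1)).trans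
        (pow_le_pow_of_le_one (by norm_num) (by norm_num) (by omega))
      have h4 := yy_nonneg f (l + 1)
      calc _ ≤ ((2 ^ l : ℕ) : ℝ) * yy f l := mul_le_mul_of_nonneg_left h2 (by positivity)
        _ = yy f (l + 1) / 2 := by
          push_cast
          rw [Int.cast_zero, zero_add, pow_succ] at hst
          linarith
        _ ≤ _ := by linarith
    · rw [if_neg hbs, Nat.cast_zero, zero_mul]
      positivity

end Pool.Agent.R444.Rot
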