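import Pool.Agent.R444.Rot.Defs

/-! # An irrational rotation gives a branch -/

set_option autoImplicit false

open Filter Topology

namespace Pool.Agent.R444.Rot

open Pool.Agent.H534R3.NonBorel

/-- the remainders of a real number -/
noncomputable def y2 (θ : ℝ) (l : ℕ) : ℝ := (q l : ℝ) * θ - round ((q l : ℝ) * θ)

/-- the digits of a real number -/
noncomputable def e2 (θ : ℝ) (l : ℕ) : ℤ :=
  round ((q (l + 1) : ℝ) * θ) - 2 ^ (l + 1) * round ((q l : ℝ) * θ)

theorem dig2 (θ : ℝ) : Dig θ (y2 θ) (e2 θ) := by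
  refine ⟨fun l => ⟨round ((q l : ℝ) * θ), by unfold y2; ring⟩, fun l => ?_⟩
  unfold y2 e2
  have h1 : q (l + 1) = 2 ^ (l + 1) * q l := rfl
  rw [h1]
  push_cast
  ring

theorem y2_half (θ : ℝ) (l : ℕ) : |y2 θ l| ≤ 1 / 2 := abs_sub_round _

theorem nn_q2 (θ : ℝ) (l : ℕ) : nn ((q l : ℝ) * θ) = |y2 θ l| := rfl

section

variable {θ : ℝ} {bad : List ℕ → Bool}

theorem ev_sum {α β : Type*} {f : α ⊕ β → ℝ} (h : Tendsto f cofinite (𝓝 0)) :
    Tendsto (fun a => f (Sum.inl a)) cofinite (𝓝 0) ∧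
      Tendsto (fun b => f (Sum.inr b)) cofinite (𝓝 0) :=
  ⟨h.comp Sum.inl_injective.tendsto_cofinite, h.comp Sum.inr_injective.tendsto_cofinite⟩

/-- the five families of constraints -/
structure Lim (θ : ℝ) (bad : List ℕ → Bool) : Prop where
  E : Tendsto (fun l : ℕ => ((2 ^ (l + 1) / (l + 2) : ℕ) : ℝ) * |y2 θ l|) atTop (𝓝 0)
  B : Tendsto (fun l : ℕ => (2:ℝ) ^ l * nn (((e2 θ l - e2 θ (nxt l) : ℤ) +
    (y2 θ (l + 1) - y2 θ (nxt l + 1))) / 2 ^ (l + 1))) atTop (𝓝 0)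
  C : ∀ s n, Tendsto (fun i : ℕ => (2:ℝ) ^ i * nn (((e2 θ (Nat.pair (cd s n) i)
        - e2 θ (Nat.pair (cd (s ++ [n]) 0) i)
        - e2 θ (Nat.pair (cd s (n + 1)) i) : ℤ) + (y2 θ (Nat.pair (cd s n) i + 1)
        - y2 θ (Nat.pair (cd (s ++ [n]) 0) i + 1) - y2 θ (Nat.pair (cd s (n + 1)) i + 1)))
        / 2 ^ (i + 1))) atTop (𝓝 0)
  D : ∀ s : List ℕ, Tendsto (fun n : ℕ => ((2 ^ (Nat.pair (cd s n) 0 + 1) /
    (Encodable.encode s + 2) : ℕ) : ℝ) * |y2 θ (Nat.pair (cd s n) 0)|) atTop (𝓝 0)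
  K : ∀ s : List ℕ, bad s = true → Tendsto (fun i : ℕ => (2:ℝ) ^ (Nat.pair (cd s 0) i) *
    |y2 θ (Nat.pair (cd s 0) i)|) atTop (𝓝 0)

theorem lim_of (h : Tendsto (fun κ => (AA bad κ : ℝ) * nn ((MM κ : ℝ) * θ)) cofinite (𝓝 0)) :
    Lim θ bad := by
  obtain ⟨hE, h⟩ := ev_sum h
  obtain ⟨hB, h⟩ := ev_sum h
  obtain ⟨hC, h⟩ := ev_sum h
  obtain ⟨hD, hK⟩ := ev_sum h
  constructor
  · rw [Nat.cofinite_eq_atTop] at hE
    refine hE.congr fun l => ?_
    show ((2 ^ (l + 1) / (l + 2) : ℕ) : ℝ) * nn (((q l : ℤ) : ℝ) * θ) = _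
    rw [Int.cast_natCast, nn_q2]
  · rw [Nat.cofinite_eq_atTop] at hB
    refine hB.congr fun l => ?_
    rw [(dig2 θ).nn_B]
    show ((2 ^ l : ℕ) : ℝ) * _ = _
    push_cast
    rfl
  · intro s n
    have hinj : Function.Injective (fun i : ℕ => ((s, n), i)) := by
      intro a b h
      exact congrArg Prod.snd h
    have := hC.comp hinj.tendsto_cofinite
    rw [Nat.cofinite_eq_atTop] at this
    refine this.congr fun i => ?_
    show ((2 ^ i : ℕ) : ℝ) * nn ((MM (.inr (.inr (.inl ((s, n), i)))) : ℝ) * θ) = _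
    rw [(dig2 θ).nn_C]
    push_cast
    rfl
  · intro s
    have hinj : Function.Injective (fun n : ℕ => (s, n)) := by
      intro a b h
      exact congrArg Prod.snd h
    have := hD.comp hinj.tendsto_cofinite
    rw [Nat.cofinite_eq_atTop] at this
    refine this.congr fun n => ?_
    show ((2 ^ (Nat.pair (cd s n) 0 + 1) / (Encodable.encode s + 2) : ℕ) : ℝ) *
      nn (((q (Nat.pair (cd s n) 0) : ℤ) : ℝ) * θ) = _
    rw [Int.cast_natCast, nn_q2]
  · intro s hs
    have hinj : Function.Injective (fun n : ℕ => (s, n)) := by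
      intro a b h
      exact congrArg Prod.snd h
    have := hK.comp hinj.tendsto_cofinite
    rw [Nat.cofinite_eq_atTop] at this
    refine this.congr fun i => ?_
    show ((if bad s then 2 ^ (Nat.pair (cd s 0) i) else 0 : ℕ) : ℝ) *
      nn (((q (Nat.pair (cd s 0) i) : ℤ) : ℝ) * θ) = _
    rw [Int.cast_natCast, nn_q2, if_pos hs]
    push_cast
    rfl

variable (H : Lim θ bad)

include H

theorem y_tendsto : Tendsto (fun l => |y2 θ l|) atTop (𝓝 0) := by
  refine squeeze_zero (fun l => abs_nonneg _) (fun l => ?_) H.E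
  have h1 : 1 ≤ 2 ^ (l + 1) / (l + 2) := by
    rw [Nat.le_div_iff_mul_le (by omega), one_mul]
    have := @Nat.lt_two_pow_self (l + 1)
    omega
  have h2 : (1:ℝ) ≤ ((2 ^ (l + 1) / (l + 2) : ℕ) : ℝ) := by exact_mod_cast h1
  nlinarith [abs_nonneg (y2 θ l)]

theorem e_bound : ∀ᶠ l in atTop, |(e2 θ l : ℝ)| ≤ l + 2 := by
  have h1 := H.E
  rw [Metric.tendsto_nhds] at h1
  have h2 := h1 (1 / 4) (by norm_num)
  filter_upwards [h2] with l hl
  rw [Real.dist_eq, sub_zero, abs_of_nonneg (by positivity)] at hl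
  have hst := (dig2 θ).step l
  have h3 : 1 ≤ 2 ^ (l + 1) / (l + 2) := by
    rw [Nat.le_div_iff_mul_le (by omega), one_mul]
    have := @Nat.lt_two_pow_self (l + 1)
    omega
  have h4 : 2 ^ (l + 1) < (l + 2) * (2 ^ (l + 1) / (l + 2) + 1) :=
    Nat.lt_mul_div_succ _ (by omega)
  set A := 2 ^ (l + 1) / (l + 2) with hA
  have h5 : (2:ℝ) ^ (l + 1) ≤ ((l:ℝ) + 2) * (2 * A) := by
    have h6 : 2 ^ (l + 1) ≤ (l + 2) * (2 * A) := by
      refine h4.le.trans (Nat.mul_le_mul_left _ (by omega))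
    exact_mod_cast h6
  have h7 : |(e2 θ l : ℝ)| ≤ 2 ^ (l + 1) * |y2 θ l| + |y2 θ (l + 1)| := by
    have : (e2 θ l : ℝ) = 2 ^ (l + 1) * y2 θ l - y2 θ (l + 1) := by linarith
    rw [this]
    refine (abs_sub _ _).trans ?_
    rw [abs_mul, abs_of_pos (show (0:ℝ) < 2 ^ (l + 1) by positivity)]
  have h8 := y2_half θ (l + 1)
  have h9 : 2 ^ (l + 1) * |y2 θ l| ≤ ((l:ℝ) + 2) * (1 / 2) := by
    calc 2 ^ (l + 1) * |y2 θ l| ≤ (((l:ℝ) + 2) * (2 * A)) * |y2 θ l| :=
          mul_le_mul_of_nonneg_right h5 (abs_nonneg _)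
      _ = ((l:ℝ) + 2) * (2 * (A * |y2 θ l|)) := by ring
      _ ≤ ((l:ℝ) + 2) * (1 / 2) := by
          refine mul_le_mul_of_nonneg_left ?_ (by positivity)
          linarith
  have h10 : (0:ℝ) ≤ l := Nat.cast_nonneg l
  linarith

omit H in
theorem nxt_le (l : ℕ) : nxt l < (l + 3) ^ 2 := by
  unfold nxt
  refine (Nat.pair_lt_max_add_one_sq _ _).trans_le ?_
  refine Nat.pow_le_pow_left ?_ 2
  have h1 := Nat.unpair_left_le l
  have h2 := Nat.unpair_right_le l
  omega

omit H in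
theorem poly_tendsto : Tendsto (fun l : ℕ => (((l:ℝ) + 3) ^ 2 + l + 6) / 2 ^ (l + 1)) atTop
    (𝓝 0) := by
  have h : ∀ k : ℕ, Tendsto (fun l : ℕ => (l:ℝ) ^ k / 2 ^ l) atTop (𝓝 0) := fun k =>
    tendsto_pow_const_div_const_pow_of_one_lt k (by norm_num)
  have h2 := (((h 2).const_mul (1 / 2)).add ((h 1).const_mul (7 / 2))).add
    ((h 0).const_mul (15 / 2))
  simp only [mul_zero, add_zero] at h2
  refine h2.congr fun l => ?_
  rw [pow_succ (2:ℝ) l]
  field_simp
  ring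

theorem e_nxt : ∀ᶠ l in atTop, e2 θ l = e2 θ (nxt l) := by
  have hB := H.B
  rw [Metric.tendsto_nhds] at hB
  have hy := y_tendsto H
  rw [Metric.tendsto_nhds] at hy
  have hy8 := hy (1 / 8) (by norm_num)
  have hp := poly_tendsto
  rw [Metric.tendsto_nhds] at hp
  have hb := e_bound H
  rw [eventually_atTop] at hb hy8
  obtain ⟨L1, hL1⟩ := hb
  obtain ⟨L2, hL2⟩ := hy8
  filter_upwards [hB (1 / 8) (by norm_num), hp (1 / 2) (by norm_num), eventually_ge_atTop L1,
    eventually_ge_atTop L2] with l h1 h2 h3 h4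
  have hn := lt_nxt l
  have hy1 := hL2 (l + 1) (by omega)
  have hy2 := hL2 (nxt l + 1) (by omega)
  rw [Real.dist_eq, sub_zero, abs_abs] at hy1 hy2
  have hb1 := hL1 l h3
  have hb2 := hL1 (nxt l) (by omega)
  rw [Real.dist_eq, sub_zero, abs_of_nonneg (by positivity)] at h2
  rw [Real.dist_eq, sub_zero, abs_of_nonneg (mul_nonneg (by positivity) (nn_nonneg _))] at h1
  set Y := y2 θ (l + 1) - y2 θ (nxt l + 1) with hY
  have hYb : |Y| < 1 / 4 := by
    have := abs_sub (y2 θ (l + 1)) (y2 θ (nxt l + 1))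
    rw [← hY] at this
    linarith
  set V : ℤ := e2 θ l - e2 θ (nxt l) with hV
  have hVb : |(V : ℝ)| ≤ ((l:ℝ) + 3) ^ 2 + l + 4 := by
    have h5 : |(V : ℝ)| ≤ |(e2 θ l : ℝ)| + |(e2 θ (nxt l) : ℝ)| := by
      rw [hV]
      push_cast
      exact abs_sub _ _
    have h6 : ((nxt l : ℕ) : ℝ) ≤ ((l:ℝ) + 3) ^ 2 := by
      have := (nxt_le l).le
      exact_mod_cast this
    linarith
  have hsm : |((V : ℝ) + Y) / 2 ^ (l + 1)| < 1 / 2 := by
    rw [abs_div, abs_of_pos (show (0:ℝ) < 2 ^ (l + 1) by positivity)]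
    refine lt_of_le_of_lt ?_ h2
    refine div_le_div_of_nonneg_right ?_ (by positivity)
    have := abs_add_le (V : ℝ) Y
    linarith
  rw [nn_eq_abs hsm, abs_div, abs_of_pos (show (0:ℝ) < 2 ^ (l + 1) by positivity), pow_succ] at h1
  have h7 : (2:ℝ) ^ l * (|(V : ℝ) + Y| / (2 ^ l * 2)) = |(V : ℝ) + Y| / 2 := by
    field_simp
  rw [h7] at h1
  have h8 : |(V : ℝ)| < 1 := by
    have := abs_sub ((V : ℝ) + Y) Y
    rw [add_sub_cancel_right] at this
    linarith
  have h9 : |V| < 1 := by exact_mod_cast h8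
  have h10 : V = 0 := Int.abs_lt_one_iff.1 h9
  omega

theorem exists_val : ∃ (L : ℕ) (v : ℕ → ℤ), ∀ c i, L ≤ Nat.pair c i →
    e2 θ (Nat.pair c i) = v c := by
  have h := e_nxt H
  rw [eventually_atTop] at h
  obtain ⟨L, hL⟩ := h
  refine ⟨L, fun c => e2 θ (Nat.pair c L), ?_⟩
  have mono : ∀ c i, L ≤ Nat.pair c i → ∀ k, e2 θ (Nat.pair c (i + k)) = e2 θ (Nat.pair c i) := by
    intro c i hi k
    induction k with
    | zero => rfl
    | succ k ih =>
      have h1 : L ≤ Nat.pair c (i + k) := by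
        rcases Nat.eq_zero_or_pos k with rfl | hk
        · exact hi
        · exact hi.trans (Nat.pair_lt_pair_right c (by omega)).le
      have h2 := hL _ h1
      rw [nxt_pair] at h2
      rw [← ih, h2]
      rfl
  intro c i hi
  rcases le_total i L with h1 | h1
  · obtain ⟨k, rfl⟩ := Nat.exists_eq_add_of_le h1
    exact (mono c i hi k).symm
  · obtain ⟨k, rfl⟩ := Nat.exists_eq_add_of_le h1
    exact mono c L (Nat.right_le_pair c L) k

omit H in
theorem pair_tendsto_right (c : ℕ) : Tendsto (fun i => Nat.pair c i) atTop atTop :=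
  tendsto_atTop_mono (fun i => Nat.right_le_pair c i) tendsto_id

omit H in
theorem int_zero {α : Type*} {l : Filter α} [l.NeBot] {V : ℤ} {Y : α → ℝ}
    (hY : Tendsto Y l (𝓝 0)) (h : Tendsto (fun a => |(V : ℝ) + Y a|) l (𝓝 0)) : V = 0 := by
  have h1 : Tendsto (fun a => |(V : ℝ) + Y a|) l (𝓝 |(V : ℝ) + 0|) :=
    (tendsto_const_nhds.add hY).abs
  have h2 := tendsto_nhds_unique h h1
  rw [add_zero] at h2
  have h3 : (V : ℝ) = 0 := abs_eq_zero.1 h2.symm
  exact_mod_cast h3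

theorem y_tendsto' {φ : ℕ → ℕ} (hφ : Tendsto φ atTop atTop) :
    Tendsto (fun i => y2 θ (φ i + 1)) atTop (𝓝 0) := by
  have h1 : Tendsto (fun l => y2 θ l) atTop (𝓝 0) :=
    tendsto_zero_iff_abs_tendsto_zero _ |>.2 (y_tendsto H)
  exact h1.comp ((tendsto_add_atTop_nat 1).comp hφ)

theorem val_rec {L : ℕ} {v : ℕ → ℤ}
    (hv : ∀ c i, L ≤ Nat.pair c i → e2 θ (Nat.pair c i) = v c) (s : List ℕ) (n : ℕ) :
    v (cd s n) = v (cd (s ++ [n]) 0) + v (cd s (n + 1)) := by
  set V : ℤ := v (cd s n) - v (cd (s ++ [n]) 0) - v (cd s (n + 1)) with hV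
  let Y : ℕ → ℝ := fun i => y2 θ (Nat.pair (cd s n) i + 1)
    - y2 θ (Nat.pair (cd (s ++ [n]) 0) i + 1) - y2 θ (Nat.pair (cd s (n + 1)) i + 1)
  have hY : Tendsto Y atTop (𝓝 0) := by
    have := ((y_tendsto' H (pair_tendsto_right (cd s n))).sub
      (y_tendsto' H (pair_tendsto_right (cd (s ++ [n]) 0)))).sub
      (y_tendsto' H (pair_tendsto_right (cd s (n + 1))))
    simpa using this
  have hsm : Tendsto (fun i : ℕ => ((V : ℝ) + Y i) / 2 ^ (i + 1)) atTop (𝓝 0) := by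
    have h1 : Tendsto (fun i : ℕ => (2:ℝ) ^ (i + 1)) atTop atTop :=
      (tendsto_pow_atTop_atTop_of_one_lt (by norm_num)).comp (tendsto_add_atTop_nat 1)
    exact (tendsto_const_nhds.add hY).div_atTop h1
  rw [Metric.tendsto_nhds] at hsm
  have h := H.C s n
  have h2 : Tendsto (fun i => |(V : ℝ) + Y i|) atTop (𝓝 0) := by
    have h3 := h.const_mul 2
    rw [mul_zero] at h3
    refine h3.congr' ?_
    filter_upwards [hsm (1 / 2) (by norm_num), eventually_ge_atTop L] with i hi hiL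
    rw [Real.dist_eq, sub_zero] at hi
    rw [hv _ _ (hiL.trans (Nat.right_le_pair _ _)), hv _ _ (hiL.trans (Nat.right_le_pair _ _)),
      hv _ _ (hiL.trans (Nat.right_le_pair _ _))]
    show 2 * (2 ^ i * nn (((V : ℤ) + Y i) / 2 ^ (i + 1))) = _
    rw [nn_eq_abs hi, abs_div, abs_of_pos (show (0:ℝ) < 2 ^ (i + 1) by positivity), pow_succ]
    field_simp
  have := int_zero hY h2
  omega

omit H in
theorem cd_tendsto (s : List ℕ) : Tendsto (fun n => Nat.pair (cd s n) 0) atTop atTop := by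
  rw [← Nat.cofinite_eq_atTop]
  refine Function.Injective.tendsto_cofinite ?_
  intro a b h
  have h1 := @cd_inj (s, a) (s, b) (Nat.pair_eq_pair.1 h).1
  exact congrArg Prod.snd h1

theorem val_zero {L : ℕ} {v : ℕ → ℤ}
    (hv : ∀ c i, L ≤ Nat.pair c i → e2 θ (Nat.pair c i) = v c) (s : List ℕ) :
    ∀ᶠ n in atTop, v (cd s n) = 0 := by
  have hD := H.D s
  have hy := (y_tendsto H).comp (cd_tendsto s)
  have hy2 := (y_tendsto' H (cd_tendsto s))
  have h1 := ((hD.add hy).const_mul ((Encodable.encode s : ℝ) + 2)).add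
    (tendsto_zero_iff_abs_tendsto_zero _ |>.1 hy2)
  rw [add_zero, add_zero, mul_zero] at h1
  rw [Metric.tendsto_nhds] at h1
  filter_upwards [h1 1 one_pos, (cd_tendsto s).eventually_ge_atTop L] with n hn hL
  rw [← hv _ _ hL]
  have hst := (dig2 θ).step (Nat.pair (cd s n) 0)
  simp only [Function.comp_apply] at hn
  set l := Nat.pair (cd s n) 0 with hl
  set A := 2 ^ (l + 1) / (Encodable.encode s + 2) with hA
  have h4 : 2 ^ (l + 1) < (Encodable.encode s + 2) * (A + 1) :=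
    Nat.lt_mul_div_succ _ (by omega)
  have h5 : (2:ℝ) ^ (l + 1) ≤ ((Encodable.encode s : ℝ) + 2) * (A + 1) := by
    exact_mod_cast h4.le
  have h7 : |(e2 θ l : ℝ)| ≤ 2 ^ (l + 1) * |y2 θ l| + |y2 θ (l + 1)| := by
    have : (e2 θ l : ℝ) = 2 ^ (l + 1) * y2 θ l - y2 θ (l + 1) := by linarith
    rw [this]
    refine (abs_sub _ _).trans ?_
    rw [abs_mul, abs_of_pos (show (0:ℝ) < 2 ^ (l + 1) by positivity)]
  have h8 : |(e2 θ l : ℝ)| < 1 := by
    refine lt_of_le_of_lt h7 (lt_of_le_of_lt ?_ (lt_of_abs_lt (by rwa [Real.dist_eq, sub_zero] at hn)))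
    show 2 ^ (l + 1) * |y2 θ l| + |y2 θ (l + 1)| ≤
      ((Encodable.encode s : ℝ) + 2) * (A * |y2 θ l| + |y2 θ l|) + |y2 θ (l + 1)|
    have h9 : ((Encodable.encode s : ℝ) + 2) * (A * |y2 θ l| + |y2 θ l|) =
      (((Encodable.encode s : ℝ) + 2) * (A + 1)) * |y2 θ l| := by ring
    rw [h9]
    have := mul_le_mul_of_nonneg_right h5 (abs_nonneg (y2 θ l))
    linarith
  have h9 : |e2 θ l| < 1 := by exact_mod_cast h8
  exact Int.abs_lt_one_iff.1 h9

theorem val_bad {L : ℕ} {v : ℕ → ℤ}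
    (hv : ∀ c i, L ≤ Nat.pair c i → e2 θ (Nat.pair c i) = v c) (s : List ℕ)
    (hs : bad s = true) : v (cd s 0) = 0 := by
  have hK := (H.K s hs).const_mul 2
  rw [mul_zero] at hK
  refine int_zero (y_tendsto' H (pair_tendsto_right (cd s 0))) (hK.congr' ?_)
  filter_upwards [eventually_ge_atTop L] with i hi
  have hst := (dig2 θ).step (Nat.pair (cd s 0) i)
  rw [hv _ _ (hi.trans (Nat.right_le_pair _ _))] at hst
  rw [← hst, abs_mul, abs_of_pos (show (0:ℝ) < 2 ^ (Nat.pair (cd s 0) i + 1) by positivity),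
    pow_succ]
  ring

omit H in
theorem rational_of_zero {L : ℕ} (h0 : ∀ l, L ≤ l → e2 θ l = 0) :
    ∃ z : ℤ, (q L : ℝ) * θ = z := by
  have hst : ∀ k, y2 θ (L + k) = 2 ^ k * y2 θ L ∨ |y2 θ L| * 2 ^ k ≤ |y2 θ (L + k)| := by
    intro k
    right
    induction k with
    | zero => simp
    | succ k ih =>
      have h1 := (dig2 θ).step (L + k)
      rw [h0 (L + k) (by omega)] at h1
      have h2 : y2 θ (L + (k + 1)) = 2 ^ (L + k + 1) * y2 θ (L + k) := by
        rw [h1]; simp [add_assoc]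
      rw [h2, abs_mul, abs_of_pos (show (0:ℝ) < 2 ^ (L + k + 1) by positivity), pow_succ]
      have h3 : (2:ℝ) ≤ 2 ^ (L + k + 1) := by
        have : (2:ℝ) ^ 1 ≤ 2 ^ (L + k + 1) := pow_le_pow_right₀ (by norm_num) (by omega)
        simpa using this
      have h4 := abs_nonneg (y2 θ (L + k))
      nlinarith
  have hz : y2 θ L = 0 := by
    by_contra hne
    have hpos : 0 < |y2 θ L| := abs_pos.2 hne
    have h1 : ∀ k, |y2 θ L| * 2 ^ k ≤ |y2 θ (L + k)| := by
      intro k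
      rcases hst k with h | h
      · rw [h, abs_mul, abs_of_pos (show (0:ℝ) < 2 ^ k by positivity)]
        exact le_of_eq (mul_comm _ _)
      · exact h
    obtain ⟨k, hk⟩ := pow_unbounded_of_one_lt (1 / |y2 θ L|) (show (1:ℝ) < 2 by norm_num)
    rw [div_lt_iff₀ hpos] at hk
    have h2 := h1 k
    have h3 := y2_half θ (L + k)
    linarith
  refine ⟨round ((q L : ℝ) * θ), ?_⟩
  unfold y2 at hz
  linarith

end

/-- a convergent irrational rotation gives a branch. -/
theorem dir2 {θ : ℝ} {t : List ℕ → Bool} {bad : List ℕ → Bool}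
    (hbad : ∀ s s' : List ℕ, s' <+: s → t s' = false → bad s = true)
    (hirr : ∀ m : ℕ, 0 < m → ∀ z : ℤ, (m : ℝ) * θ ≠ z)
    (h : Tendsto (fun κ => (AA bad κ : ℝ) * nn ((MM κ : ℝ) * θ)) cofinite (𝓝 0)) :
    ∃ f : ℕ → ℕ, ∀ n, t (br f n) = true := by
  have H := lim_of h
  obtain ⟨L, v, hv⟩ := exists_val H
  -- some value is nonzero
  obtain ⟨c, hc⟩ : ∃ c, v c ≠ 0 := by
    by_contra hcon
    push Not at hcon
    obtain ⟨z, hz⟩ := rational_of_zero (θ := θ) (L := L) (fun l hl => by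
      have := hv (Nat.unpair l).1 (Nat.unpair l).2 (by rwa [Nat.pair_unpair])
      rw [Nat.pair_unpair] at this
      rw [this, hcon])
    exact hirr (q L) (q_pos L) z hz
  -- every code is the code of a variable
  obtain ⟨⟨s0, n0⟩, hs0⟩ : ∃ p : List ℕ × ℕ, cd p.1 p.2 = c := by
    refine ⟨(Denumerable.ofNat (List ℕ × ℕ) c), ?_⟩
    unfold cd
    exact Denumerable.encode_ofNat c
  have step : ∀ s n, v (cd s n) ≠ 0 → ∃ k, v (cd (s ++ [k]) 0) ≠ 0 := by
    intro s n hne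
    by_contra hcon
    push Not at hcon
    have h1 : ∀ k, v (cd s (n + k)) = v (cd s n) := by
      intro k
      induction k with
      | zero => rfl
      | succ k ih =>
        have := val_rec H hv s (n + k)
        rw [hcon (n + k), zero_add, ih] at this
        rw [this]
        rfl
    have h2 := val_zero H hv s
    rw [eventually_atTop] at h2
    obtain ⟨N, hN⟩ := h2
    have := hN (n + N) (by omega)
    rw [h1] at this
    exact hne this
  obtain ⟨k0, hk0⟩ := step s0 n0 (by rw [hs0]; exact hc)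
  choose! g hg using fun s => step s 0
  let sq : ℕ → List ℕ := fun j => Nat.rec (s0 ++ [k0]) (fun _ s => s ++ [g s]) j
  have sq0 : sq 0 = s0 ++ [k0] := rfl
  have sqs : ∀ j, sq (j + 1) = sq j ++ [g (sq j)] := fun j => rfl
  have hsq : ∀ j, v (cd (sq j) 0) ≠ 0 := by
    intro j
    induction j with
    | zero => exact hk0
    | succ j ih => rw [sqs]; exact hg _ ih
  have hlen : ∀ j, j < (sq j).length := by
    intro j
    induction j with
    | zero => rw [sq0]; simp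
    | succ j ih => rw [sqs]; simp; exact ih
  have hpre : ∀ j k, sq j <+: sq (j + k) := by
    intro j k
    induction k with
    | zero => exact List.prefix_refl _
    | succ k ih =>
      rw [← add_assoc, sqs]
      exact ih.trans (List.prefix_append _ _)
  have ht : ∀ j s', s' <+: sq j → t s' = true := by
    intro j s' hs'
    by_contra hf
    have hf' : t s' = false := by simpa using hf
    exact hsq j (val_bad H hv _ (hbad _ _ hs' hf'))
  refine ⟨fun n => (sq n)[n]'(hlen n), fun n => ht n _ ?_⟩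
  have hbr : br (fun n => (sq n)[n]'(hlen n)) n = (sq n).take n := by
    refine List.ext_getElem ?_ ?_
    · simp [br, (hlen n).le]
    · intro i h1 h2
      have hi : i < n := by simpa using h1
      simp only [br, List.getElem_map, List.getElem_range, List.getElem_take]
      obtain ⟨k, rfl⟩ := Nat.exists_eq_add_of_le hi.le
      exact (hpre i k).getElem (hlen i)
  rw [hbr]
  exact List.take_prefix _ _

end Pool.Agent.R444.Rot
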